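import Pool.Agent.Q22.EC.Asm

/-!
# MP_cb6149_al: κ-existentially closed groups with few automorphisms

For every regular cardinal `κ` there is a `κ`-existentially closed group `G` of cardinality
`λ > κ` with `|Aut(G)| < 2^λ` (negative answer to Q1, for every regular `κ`).

Construction. Let `μ > κ` and `λ = 2^μ`. `G` is the union of a chain of length `κ`; in one step all
solvable systems over the present group `G₀` with at most `κ` conditions are solved: `N ≤ M` small,
`M` generated over `N` by a solution `x`; one adjoins a free group `F` of rank `μ`, amalgamates `M`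
and adjoins an involution `t` with `t⁻¹ e_{v,i} t = x_v z_{v,i,r(i)} x_v⁻¹`, where the `e_{v,i}` and
`z_{v,i,b}` are basis elements of `F` and the function `r` is different for different systems. The
centralizer of `{e_{v,i} : i}` stays trivial for ever, so that `t` and the solution `x` are
determined by `G₀` and `F`; hence an automorphism of `G` fixing a certain set of `μ` elements is
trivial, and `|Aut(G)| ≤ λ^μ = λ < 2^λ`.
-/

namespace Pool.Agent.Results.MP_cb6149_al.FewAutomorphisms

universe u

open Cardinal Monoid

/-- The assignment `a : X → H` of elements of `H` to the variables solves the set of the equations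
`w = 1` (`w ∈ Eqs`) and inequations `w ≠ 1` (`w ∈ Neqs`) over `G`, where `ι : G →* H` and words are
elements of the free product `G * F(X)`. -/
def SolvedBy {G H X : Type u} [Group G] [Group H] (ι : G →* H) (a : X → H)
    (Eqs Neqs : Set (Coprod G (FreeGroup X))) : Prop :=
  (∀ w ∈ Eqs, Coprod.lift ι (FreeGroup.lift a) w = 1) ∧
    ∀ w ∈ Neqs, Coprod.lift ι (FreeGroup.lift a) w ≠ 1

/-- `G` is `κ`-existentially closed: every set of fewer than `κ` equations and inequations over `G`
which is solvable in a group containing `G` is solvable in `G`. -/
def IsExistentiallyClosed (κ : Cardinal.{u}) (G : Type u) [Group G] : Prop :=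
  ∀ (X : Type u) (Eqs Neqs : Set (Coprod G (FreeGroup X))), #Eqs < κ → #Neqs < κ →
    (∃ (H : Type u) (_ : Group H) (ι : G →* H) (a : X → H), Function.Injective ι ∧
      SolvedBy ι a Eqs Neqs) →
    ∃ a : X → G, SolvedBy (MonoidHom.id G) a Eqs Neqs

/-- For every regular cardinal `κ` there is a `κ`-existentially closed group `G` of cardinality
greater than `κ` with fewer than `2 ^ #G` automorphisms. -/
theorem result (κ : Cardinal.{u}) (hκ : κ.IsRegular) :
    ∃ (G : Type u) (_ : Group G), IsExistentiallyClosed κ G ∧ κ < #G ∧ #(MulAut G) < 2 ^ #G :=
  Pool.Agent.Q22.EC.main κ hκ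

end Pool.Agent.Results.MP_cb6149_al.FewAutomorphisms
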